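import Mathlib

/-!
Board ghk (MP_52e316_nt): elementary bounds for the Plancherel density (rank 3: against the analytic
conductor).
-/

set_option autoImplicit false

namespace Pool.Agent.H17.GHK

theorem one_le_pr {ι : Type} (s : Finset ι) (f : ι → ℝ) (h : ∀ j, 1 ≤ f j) : 1 ≤ ∏ j ∈ s, f j := by
  rw [← Finset.prod_const_one (s := s) (ι := ι) (M := ℝ)]
  exact Finset.prod_le_prod (fun _ _ => zero_le_one) fun j _ => h j

theorem ge_fac {ι : Type} [Fintype ι] [DecidableEq ι] (f : ι → ℝ) (h : ∀ j, 1 ≤ f j) (a : ι) :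
    f a ≤ ∏ j, f j := by
  rw [← Finset.mul_prod_erase Finset.univ f (Finset.mem_univ a)]
  exact le_mul_of_one_le_right (zero_le_one.trans (h a)) (one_le_pr _ f h)

theorem ge_fac2 {ι : Type} [Fintype ι] [DecidableEq ι] (f : ι → ℝ) (h : ∀ j, 1 ≤ f j) {a b : ι}
    (hab : b ≠ a) : f a * f b ≤ ∏ j, f j := by
  rw [← Finset.mul_prod_erase Finset.univ f (Finset.mem_univ a),
    ← Finset.mul_prod_erase (Finset.univ.erase a) f (Finset.mem_erase.2 ⟨hab, Finset.mem_univ b⟩)]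
  refine mul_le_mul_of_nonneg_left ?_ (zero_le_one.trans (h a))
  exact le_mul_of_one_le_right (zero_le_one.trans (h b)) (one_le_pr _ f h)

theorem fac_ge {m : ℕ} (t : Fin m → ℝ) (i j : Fin m) : 1 ≤ 1 + max 0 (t i - t j) := by
  linarith [le_max_left 0 (t i - t j)]

theorem pl_fac {m : ℕ} (t : Fin m → ℝ) (a b : Fin m) :
    1 + |t a - t b| ≤ ∏ i : Fin m, ∏ j : Fin m, (1 + max 0 (t i - t j)) := by
  have h1 : ∀ a b : Fin m, 1 + max 0 (t a - t b) ≤
      ∏ i : Fin m, ∏ j : Fin m, (1 + max 0 (t i - t j)) := fun a b =>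
    (ge_fac (fun j => 1 + max 0 (t a - t j)) (fac_ge t a) b).trans
      (ge_fac (fun i => ∏ j : Fin m, (1 + max 0 (t i - t j)))
        (fun i => one_le_pr _ _ (fac_ge t i)) a)
  rcases le_total 0 (t a - t b) with h | h
  · have h2 := h1 a b
    rw [max_eq_right h] at h2
    rwa [abs_of_nonneg h]
  · have h2 := h1 b a
    rw [max_eq_right (by linarith)] at h2
    rw [abs_of_nonpos h]
    linarith

/-- the density is at least `1` -/
theorem pl_ge {m : ℕ} (mu : Fin m → ℂ) :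
    1 ≤ ∏ i : Fin m, ∏ j : Fin m, (1 + max 0 ((mu i).im - (mu j).im)) := by
  exact one_le_pr _ _ fun i => one_le_pr _ _ fun j => fac_ge (fun i => (mu i).im) i j

/-- the density as a product over the pairs -/
theorem pl_eq {m : ℕ} (t : Fin m → ℝ) :
    ∏ i : Fin m, ∏ j : Fin m, (1 + max 0 (t i - t j)) =
      ∏ i : Fin m, ∏ j : Fin m, if i < j then 1 + |t i - t j| else 1 := by
  have h1 : ∀ i j : Fin m, 1 + max 0 (t i - t j) =
      (if i < j then 1 + max 0 (t i - t j) else 1) *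
        (if j < i then 1 + max 0 (t i - t j) else 1) := by
    intro i j
    rcases lt_trichotomy i j with h | h | h
    · rw [if_pos h, if_neg (not_lt.2 h.le), mul_one]
    · rw [h]
      simp
    · rw [if_neg (not_lt.2 h.le), if_pos h, one_mul]
  have h2 : ∏ i : Fin m, ∏ j : Fin m, (1 + max 0 (t i - t j)) =
      (∏ i : Fin m, ∏ j : Fin m, if i < j then 1 + max 0 (t i - t j) else 1) *
        ∏ i : Fin m, ∏ j : Fin m, if i < j then 1 + max 0 (t j - t i) else 1 := by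
    have h3 : (∏ i : Fin m, ∏ j : Fin m, if i < j then 1 + max 0 (t j - t i) else 1) =
        ∏ i : Fin m, ∏ j : Fin m, if j < i then 1 + max 0 (t i - t j) else 1 :=
      Finset.prod_comm
    rw [h3, ← Finset.prod_mul_distrib]
    refine Finset.prod_congr rfl fun i _ => ?_
    rw [← Finset.prod_mul_distrib]
    exact Finset.prod_congr rfl fun j _ => h1 i j
  rw [h2, ← Finset.prod_mul_distrib]
  refine Finset.prod_congr rfl fun i _ => ?_
  rw [← Finset.prod_mul_distrib]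
  refine Finset.prod_congr rfl fun j _ => ?_
  split_ifs with h
  · rcases le_total 0 (t i - t j) with h4 | h4
    · rw [max_eq_right h4, max_eq_left (by linarith), abs_of_nonneg h4, add_zero, mul_one]
    · rw [max_eq_left h4, max_eq_right (by linarith), abs_of_nonpos h4, add_zero, one_mul]
      ring
  · rw [one_mul]

/-- the number of pairs -/
theorem pairs_card (m : ℕ) (x : ℝ) :
    (∏ i : Fin m, ∏ j : Fin m, if i < j then x else 1) = x ^ (m * (m - 1) / 2) := by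
  have h1 : ∀ j : Fin m, (∏ i : Fin m, if i < j then x else 1) = x ^ (j : ℕ) := by
    intro j
    rw [Finset.prod_ite, Finset.prod_const_one, mul_one, Finset.prod_const]
    congr 1
    rw [← Fin.card_Iio j]
    congr 1
    ext i
    simp
  rw [Finset.prod_comm, Finset.prod_congr rfl fun j _ => h1 j, Finset.prod_pow_eq_pow_sum]
  congr 1
  rw [Fin.sum_univ_eq_sum_range (fun j => j) m, Finset.sum_range_id]

/-- the density against the sum of the parameters -/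
theorem pl_le {m : ℕ} (mu : Fin m → ℂ) :
    ∏ i : Fin m, ∏ j : Fin m, (1 + max 0 ((mu i).im - (mu j).im)) ≤
      (1 + ∑ j, ‖mu j‖) ^ (m * (m - 1) / 2) := by
  rw [pl_eq (fun i => (mu i).im), ← pairs_card]
  refine Finset.prod_le_prod (fun i _ => Finset.prod_nonneg fun j _ => ?_) fun i _ =>
    Finset.prod_le_prod (fun j _ => ?_) fun j _ => ?_
  · split_ifs
    · positivity
    · exact zero_le_one
  · split_ifs
    · positivity
    · exact zero_le_one
  · split_ifs with h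
    · have h1 : |(mu i).im - (mu j).im| ≤ ‖mu i‖ + ‖mu j‖ :=
        (abs_sub _ _).trans (add_le_add (Complex.abs_im_le_norm _) (Complex.abs_im_le_norm _))
      have h2 : ‖mu i‖ + ‖mu j‖ ≤ ∑ l, ‖mu l‖ := by
        rw [← Finset.sum_pair (f := fun l => ‖mu l‖) (ne_of_lt h)]
        exact Finset.sum_le_sum_of_subset_of_nonneg (Finset.subset_univ _)
          fun l _ _ => norm_nonneg _
      linarith
    · exact le_rfl

/-- three real numbers with sum `0`: one of them is opposite to the largest one -/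
theorem opp3 (t : Fin 3 → ℝ) (h : ∑ j, t j = 0) (a : Fin 3) :
    ∃ b : Fin 3, b ≠ a ∧ |t a| ≤ 2 * |t b| ∧ |t a| ≤ |t a - t b| := by
  have key : ∀ x y z : ℝ, x + y + z = 0 → x * y ≤ x * z → |x| ≤ 2 * |y| ∧ |x| ≤ |x - y| := by
    intro x y z h1 h2
    have h3 : z = -x - y := by linarith
    have h4 : 2 * (x * y) ≤ -(x * x) := by rw [h3] at h2; nlinarith
    constructor
    · rw [show (2 : ℝ) * |y| = |2 * y| by rw [abs_mul, abs_two]]
      refine sq_le_sq.1 ?_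
      nlinarith [sq_nonneg (x + 2 * y)]
    · refine sq_le_sq.1 ?_
      nlinarith [sq_nonneg y, sq_nonneg x]
  rw [Fin.sum_univ_three] at h
  fin_cases a
  · rcases le_total (t 0 * t 1) (t 0 * t 2) with h1 | h1
    · exact ⟨1, by decide, key (t 0) (t 1) (t 2) (by linarith) h1⟩
    · exact ⟨2, by decide, key (t 0) (t 2) (t 1) (by linarith) h1⟩
  · rcases le_total (t 1 * t 0) (t 1 * t 2) with h1 | h1
    · exact ⟨0, by decide, key (t 1) (t 0) (t 2) (by linarith) h1⟩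
    · exact ⟨2, by decide, key (t 1) (t 2) (t 0) (by linarith) h1⟩
  · rcases le_total (t 2 * t 0) (t 2 * t 1) with h1 | h1
    · exact ⟨0, by decide, key (t 2) (t 0) (t 1) (by linarith) h1⟩
    · exact ⟨1, by decide, key (t 2) (t 1) (t 0) (by linarith) h1⟩

/-- rank `3`, natural exponents -/
theorem m3_pow (mu : Fin 3 → ℂ) (h0 : ∑ j, mu j = 0) (hre : ∀ j, |(mu j).re| ≤ 9) :
    (1 + ∑ j, ‖mu j‖) ^ 9 ≤ (∏ i : Fin 3, ∏ j : Fin 3, (1 + max 0 ((mu i).im - (mu j).im))) *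
      (2 * 28 ^ 3 * ∏ j, (1 + ‖mu j‖)) ^ 4 := by
  obtain ⟨a, ha⟩ := Finite.exists_max (fun j : Fin 3 => |(mu j).im|)
  have him : ∑ j, (mu j).im = 0 := by
    have h1 := congrArg Complex.im h0
    rwa [Complex.im_sum, Complex.zero_im] at h1
  obtain ⟨b, hba, hb1, hb2⟩ := opp3 (fun j => (mu j).im) him a
  obtain ⟨A, hA⟩ : ∃ A : ℝ, A = 1 + |(mu a).im| := ⟨_, rfl⟩
  have hT : 0 ≤ |(mu a).im| := abs_nonneg _
  have hA1 : 1 ≤ A := by linarith
  have hP : 1 + ∑ j, ‖mu j‖ ≤ 28 * A := by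
    have h1 : ∀ j : Fin 3, ‖mu j‖ ≤ 9 + |(mu a).im| := fun j =>
      (Complex.norm_le_abs_re_add_abs_im (mu j)).trans (add_le_add (hre j) (ha j))
    rw [Fin.sum_univ_three]
    linarith [h1 0, h1 1, h1 2]
  have hP0 : 0 ≤ 1 + ∑ j, ‖mu j‖ := by positivity
  have hpl : A ≤ ∏ i : Fin 3, ∏ j : Fin 3, (1 + max 0 ((mu i).im - (mu j).im)) := by
    have h1 := pl_fac (fun j => (mu j).im) a b
    have h2 : |(mu a).im| ≤ |(mu a).im - (mu b).im| := hb2
    linarith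
  have hpr : A ^ 2 / 2 ≤ ∏ j, (1 + ‖mu j‖) := by
    have h1 := ge_fac2 (fun j => 1 + ‖mu j‖) (fun j => by linarith [norm_nonneg (mu j)]) hba
    have h2 : |(mu a).im| ≤ ‖mu a‖ := Complex.abs_im_le_norm _
    have h3 : |(mu b).im| ≤ ‖mu b‖ := Complex.abs_im_le_norm _
    have h4 : |(mu a).im| ≤ 2 * |(mu b).im| := hb1
    have h5 : A ≤ 1 + ‖mu a‖ := by linarith
    have h6 : A / 2 ≤ 1 + ‖mu b‖ := by linarith
    calc A ^ 2 / 2 = A * (A / 2) := by ring
      _ ≤ (1 + ‖mu a‖) * (1 + ‖mu b‖) := mul_le_mul h5 h6 (by linarith) (by linarith)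
      _ ≤ _ := h1
  have hA0 : 0 ≤ A := by linarith
  calc (1 + ∑ j, ‖mu j‖) ^ 9 ≤ (28 * A) ^ 9 := pow_le_pow_left₀ hP0 hP 9
    _ = 28 ^ 9 * A ^ 9 := by rw [mul_pow]
    _ ≤ 28 ^ 12 * A ^ 9 := mul_le_mul_of_nonneg_right (by norm_num) (by positivity)
    _ = A * (2 * 28 ^ 3 * (A ^ 2 / 2)) ^ 4 := by ring
    _ ≤ _ := mul_le_mul hpl (pow_le_pow_left₀ (by positivity)
        (mul_le_mul_of_nonneg_left hpr (by norm_num)) 4) (by positivity) (hA0.trans hpl)

/-- rank `3` -/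
theorem m3 : ∃ c : ℝ, 0 < c ∧ ∀ mu : Fin 3 → ℂ, ∑ j, mu j = 0 → (∀ j, |(mu j).re| ≤ 9) →
    ((1 + ∑ j, ‖mu j‖) ^ ((3 : ℝ) ^ 2) /
      ∏ i : Fin 3, ∏ j : Fin 3, (1 + max 0 ((mu i).im - (mu j).im))) ^ (1 / ((3 : ℝ) + 1)) ≤
      c * ∏ j, (1 + ‖mu j‖) := by
  refine ⟨2 * 28 ^ 3, by norm_num, fun mu h0 hre => ?_⟩
  have h1 := m3_pow mu h0 hre
  have hpl : 0 < ∏ i : Fin 3, ∏ j : Fin 3, (1 + max 0 ((mu i).im - (mu j).im)) :=
    zero_lt_one.trans_le (pl_ge mu)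
  have hP0 : 0 ≤ 1 + ∑ j, ‖mu j‖ := by positivity
  have hY : 0 ≤ 2 * 28 ^ 3 * ∏ j, (1 + ‖mu j‖) := by positivity
  have e1 : (1 + ∑ j, ‖mu j‖) ^ ((3 : ℝ) ^ 2) = (1 + ∑ j, ‖mu j‖) ^ 9 := by
    rw [show ((3 : ℝ) ^ 2) = ((9 : ℕ) : ℝ) by norm_num, Real.rpow_natCast]
  rw [e1]
  calc ((1 + ∑ j, ‖mu j‖) ^ 9 /
        ∏ i : Fin 3, ∏ j : Fin 3, (1 + max 0 ((mu i).im - (mu j).im))) ^ (1 / ((3 : ℝ) + 1)) ≤
      ((2 * 28 ^ 3 * ∏ j, (1 + ‖mu j‖)) ^ 4) ^ (1 / ((3 : ℝ) + 1)) := by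
        refine Real.rpow_le_rpow (div_nonneg (pow_nonneg hP0 9) hpl.le) ?_ (by norm_num)
        rw [div_le_iff₀ hpl, mul_comm]
        exact h1
    _ = 2 * 28 ^ 3 * ∏ j, (1 + ‖mu j‖) := by
        rw [show (1 / ((3 : ℝ) + 1)) = (((4 : ℕ) : ℝ))⁻¹ by norm_num,
          Real.pow_rpow_inv_natCast hY (by norm_num)]

end Pool.Agent.H17.GHK
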