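import Pool.Agent.H5.GHK.MNQ

/-!
Board ghk (MP_52e316_nt), row WEY, second copy, part 1: the average of the power function over the
rotations in the plane of two neighbouring columns.
-/

set_option autoImplicit false

namespace Pool.Agent.H17.GHK

open MeasureTheory Real Pool.Agent.H34.GM Pool.Agent.H14.GHK Pool.Agent.H47.GHK Pool.Agent.H5.GHK

variable {m n : ℕ}

/-- the `j`-th factor of the power function -/
noncomputable def fj (mu : Fin m → ℂ) (z : Mat m) (j : Fin m) : ℂ :=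
  ((mnr z ((j : ℕ) + 1) / mnr z (j : ℕ) : ℝ) : ℂ) ^ ex mu (j : ℕ)

/-- the product of the other factors -/
noncomputable def Rj (mu : Fin m → ℂ) (z : Mat m) (h : n + 1 < m) : ℂ :=
  ∏ j ∈ (Finset.univ.erase (⟨n, Nat.lt_of_succ_lt h⟩ : Fin m)).erase ⟨n + 1, h⟩, fj mu z j

theorem pw_split (mu : Fin m → ℂ) (z : Mat m) (h : n + 1 < m) :
    pw mu z = fj mu z ⟨n, Nat.lt_of_succ_lt h⟩ * (fj mu z ⟨n + 1, h⟩ * Rj mu z h) := by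
  have h1 : (⟨n + 1, h⟩ : Fin m) ∈
      Finset.univ.erase (⟨n, Nat.lt_of_succ_lt h⟩ : Fin m) :=
    Finset.mem_erase.2 ⟨(pq_ne h).symm, Finset.mem_univ _⟩
  rw [pw_ex]
  unfold Rj
  rw [Finset.mul_prod_erase _ (fun j => fj mu z j) h1,
    Finset.mul_prod_erase _ (fun j => fj mu z j) (Finset.mem_univ _)]
  rfl

theorem Rj_rot (mu : Fin m → ℂ) (z : Mat m) (h : n + 1 < m) (θ : ℝ) :
    Rj mu (z * rot ⟨n, Nat.lt_of_succ_lt h⟩ ⟨n + 1, h⟩ θ) h = Rj mu z h := by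
  unfold Rj
  refine Finset.prod_congr rfl fun j hj => ?_
  have h1 : j ≠ ⟨n + 1, h⟩ := (Finset.mem_erase.1 hj).1
  have h2 : j ≠ ⟨n, Nat.lt_of_succ_lt h⟩ := (Finset.mem_erase.1 (Finset.mem_erase.1 hj).2).1
  have h3 : (j : ℕ) ≠ n + 1 := fun h3 => h1 (Fin.ext h3)
  have h4 : (j : ℕ) + 1 ≠ n + 1 := fun h4 => h2 (Fin.ext (by simpa using h4))
  unfold fj
  rw [mnr_rot_ne h z _ θ h3, mnr_rot_ne h z _ θ h4]

theorem Rj_swap (mu : Fin m → ℂ) (z : Mat m) (h : n + 1 < m) :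
    Rj (mu ∘ Equiv.swap (⟨n, Nat.lt_of_succ_lt h⟩ : Fin m) ⟨n + 1, h⟩) z h = Rj mu z h := by
  unfold Rj
  refine Finset.prod_congr rfl fun j hj => ?_
  have h1 : j ≠ ⟨n + 1, h⟩ := (Finset.mem_erase.1 hj).1
  have h2 : j ≠ ⟨n, Nat.lt_of_succ_lt h⟩ := (Finset.mem_erase.1 (Finset.mem_erase.1 hj).2).1
  unfold fj
  congr 1
  rw [ex_lt, ex_lt, Function.comp_apply, Equiv.swap_apply_of_ne_of_ne h2 h1]

/-- the power function on the circle -/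
theorem pw_rot (h : n + 1 < m) (z : Mat m) (hz : z.det ≠ 0) : ∃ a b c : ℝ, 0 < c ∧
    0 < a * c - b ^ 2 ∧ (∀ θ, 0 < qc a b c θ) ∧ ∀ (mu : Fin m → ℂ) (θ : ℝ),
      pw mu (z * rot ⟨n, Nat.lt_of_succ_lt h⟩ ⟨n + 1, h⟩ θ) =
        Rj mu z h * ((a * c - b ^ 2 : ℝ) : ℂ) ^ ex mu (n + 1) *
          ((qc a b c θ : ℝ) : ℂ) ^ (ex mu n - ex mu (n + 1)) := by
  obtain ⟨h1, a, b, c, hc, hD, h2, h3⟩ := pf_MNQ m n h z hz
  have hn : n ≤ m := by omega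
  have hn1 : n + 1 ≤ m := by omega
  have hzn : 0 < mnr z n := mnr_pos' hn hz
  have hq : ∀ θ, 0 < qc a b c θ := by
    intro θ
    have h4 : 0 < mnr (z * rot ⟨n, Nat.lt_of_succ_lt h⟩ ⟨n + 1, h⟩ θ) (n + 1) := by
      refine mnr_pos' hn1 ?_
      rw [Matrix.det_mul]
      exact mul_ne_zero hz (det_rot_ne h θ)
    rw [h3 θ] at h4
    exact (pos_iff_pos_of_mul_pos h4).1 hzn
  refine ⟨a, b, c, hc, hD, hq, fun mu θ => ?_⟩
  rw [pw_split mu _ h, Rj_rot]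
  have e1 : fj mu (z * rot ⟨n, Nat.lt_of_succ_lt h⟩ ⟨n + 1, h⟩ θ) ⟨n, Nat.lt_of_succ_lt h⟩ =
      ((qc a b c θ : ℝ) : ℂ) ^ ex mu n := by
    unfold fj
    show ((mnr (z * rot ⟨n, Nat.lt_of_succ_lt h⟩ ⟨n + 1, h⟩ θ) (n + 1) /
      mnr (z * rot ⟨n, Nat.lt_of_succ_lt h⟩ ⟨n + 1, h⟩ θ) n : ℝ) : ℂ) ^ ex mu n = _
    rw [h3 θ, h1 n θ (by omega), mul_div_cancel_left₀ _ hzn.ne']
  have e2 : fj mu (z * rot ⟨n, Nat.lt_of_succ_lt h⟩ ⟨n + 1, h⟩ θ) ⟨n + 1, h⟩ =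
      ((a * c - b ^ 2 : ℝ) : ℂ) ^ ex mu (n + 1) * ((qc a b c θ : ℝ) : ℂ) ^ (-ex mu (n + 1)) := by
    unfold fj
    show ((mnr (z * rot ⟨n, Nat.lt_of_succ_lt h⟩ ⟨n + 1, h⟩ θ) (n + 1 + 1) /
      mnr (z * rot ⟨n, Nat.lt_of_succ_lt h⟩ ⟨n + 1, h⟩ θ) (n + 1) : ℝ) : ℂ) ^ ex mu (n + 1) = _
    have e3 : mnr z (n + 1 + 1) = mnr z n * (a * c - b ^ 2) := h2
    rw [h3 θ, h1 (n + 1 + 1) θ (by omega), e3, mul_div_mul_left _ _ hzn.ne', div_eq_mul_inv,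
      Complex.ofReal_mul, Complex.mul_cpow_ofReal_nonneg hD.le (inv_nonneg.2 (hq θ).le)]
    congr 1
    rw [Complex.ofReal_inv, Complex.inv_cpow, Complex.cpow_neg]
    rw [Complex.arg_ofReal_of_nonneg (hq θ).le]
    exact Real.pi_pos.ne
  have hq0 : ((qc a b c θ : ℝ) : ℂ) ≠ 0 := Complex.ofReal_ne_zero.2 (hq θ).ne'
  rw [e1, e2, sub_eq_add_neg (ex mu n) (ex mu (n + 1)), Complex.cpow_add _ _ hq0]
  ring

theorem ex_swap_n (mu : Fin m → ℂ) (h : n + 1 < m) :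
    ex (mu ∘ Equiv.swap (⟨n, Nat.lt_of_succ_lt h⟩ : Fin m) ⟨n + 1, h⟩) n -
      ex (mu ∘ Equiv.swap (⟨n, Nat.lt_of_succ_lt h⟩ : Fin m) ⟨n + 1, h⟩) (n + 1) =
      -1 - (ex mu n - ex mu (n + 1)) := by
  rw [ex_sub _ h, ex_sub _ h]
  simp only [Function.comp_apply, Equiv.swap_apply_left, Equiv.swap_apply_right]
  ring

theorem ex_swap_n1 (mu : Fin m → ℂ) (h : n + 1 < m) :
    ex (mu ∘ Equiv.swap (⟨n, Nat.lt_of_succ_lt h⟩ : Fin m) ⟨n + 1, h⟩) (n + 1) =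
      ex mu (n + 1) + ((ex mu n - ex mu (n + 1)) + 1 / 2) := by
  rw [ex_sub _ h]
  unfold ex
  rw [dif_pos h, dif_pos h]
  simp only [Function.comp_apply, Equiv.swap_apply_right]
  push_cast
  ring

/-- the average over the rotations is symmetric -/
theorem avg_swap (h : n + 1 < m) (z : Mat m) (hz : z.det ≠ 0) (mu : Fin m → ℂ) :
    ∫ θ in (-(π / 2))..(π / 2), pw (mu ∘ Equiv.swap (⟨n, Nat.lt_of_succ_lt h⟩ : Fin m) ⟨n + 1, h⟩)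
        (z * rot ⟨n, Nat.lt_of_succ_lt h⟩ ⟨n + 1, h⟩ θ) =
      ∫ θ in (-(π / 2))..(π / 2), pw mu (z * rot ⟨n, Nat.lt_of_succ_lt h⟩ ⟨n + 1, h⟩ θ) := by
  obtain ⟨a, b, c, hc, hD, -, hp⟩ := pw_rot h z hz
  have hD0 : ((a * c - b ^ 2 : ℝ) : ℂ) ≠ 0 := Complex.ofReal_ne_zero.2 hD.ne'
  simp only [hp]
  rw [intervalIntegral.integral_const_mul, intervalIntegral.integral_const_mul, Rj_swap,
    ex_swap_n, ex_swap_n1, laplace hc hD (ex mu n - ex mu (n + 1)), Complex.cpow_add _ _ hD0]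
  ring

end Pool.Agent.H17.GHK
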